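import Pool.Agent.Helper83.PW.Move
import Pool.Agent.Helper23.PL.SpecE
import Pool.Agent.Helper71.QU.Any

/-!
# PW/E1: a short cycle of `N` at a vertex without pins nearby, polynomial bound (MP_0dbcb7_co)

`Z` is a cycle of `N`, `y` on `Z`, no pin ends within `ρ` of `y`, the ball of radius `ρ` has at most `k2` branch vertices and
`|Z| ≤ k ρ`. There is a gap: a radius `σ ≤ ρ / 2` such that no branch vertex has distance in `(σ, σ + Δ]` from `y`,
`Δ = ρ / (2 (k2 + 1))`. The branch vertices within `σ` are moved to the other end `v0` of a thread `T0` of `Z` that leaves them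
(the others reach `v0` along the rest of `Z`); if there is none on `Z`, the thread of `Z` that contains `y` is long and is
redrawn along the rest of `Z`.
-/

set_option autoImplicit false
set_option linter.unusedSectionVars false

open Set
open Pool.Agent.Helper83.OP Pool.Agent.Helper83.HR Pool.Agent.Helper93.HH Pool.Agent.Helper95.HH
open Pool.Agent.Helper23.PL

namespace Pool.Agent.Helper83.PW

/-- the next vertex of degree at least three -/
theorem cy_first {V : Type} {G : SimpleGraph V} {u v : V} (p : G.Walk u v) :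
    ¬ p.Nil → 3 ≤ deg G v → ∃ (b : V) (T : G.Walk u b) (R : G.Walk b v),
      p = T.append R ∧ ¬ T.Nil ∧ 3 ≤ deg G b ∧
      ∀ x ∈ T.support.tail, x ≠ b → ¬ 3 ≤ deg G x := by
  induction p with
  | nil => exact fun h => absurd SimpleGraph.Walk.Nil.nil h
  | @cons u u' v h p ih =>
    intro _ hv
    by_cases h3 : 3 ≤ deg G u'
    · refine ⟨u', SimpleGraph.Walk.cons h SimpleGraph.Walk.nil, p, rfl, by simp, h3, ?_⟩
      intro x hx hx2
      simp only [SimpleGraph.Walk.support_cons, SimpleGraph.Walk.support_nil, List.tail_cons,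
        List.mem_singleton] at hx
      exact absurd hx hx2
    · have hpn : ¬ p.Nil := by
        intro hn
        exact h3 (hn.eq ▸ hv)
      obtain ⟨b, T, R, e, -, hb, hT⟩ := ih hpn hv
      refine ⟨b, SimpleGraph.Walk.cons h T, R, by rw [e]; rfl, by simp, hb, ?_⟩
      intro x hx hx2
      rw [SimpleGraph.Walk.support_cons, List.tail_cons, SimpleGraph.Walk.mem_support_iff] at hx
      rcases hx with hx | hx
      · rw [hx]
        exact h3
      · exact hT x hx hx2

/-- a thread of a walk that leaves `C` -/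
theorem leave {V : Type} {G : SimpleGraph V} (C : Set V) {u v : V} (p : G.Walk u v) :
    ∀ {a : V} (q : G.Walk a u), a ∈ C → (∀ x ∈ q.support.tail, ¬ 3 ≤ deg G x) →
      (∃ w ∈ p.support, 3 ≤ deg G w ∧ w ∉ C) →
      ∃ (a' b : V) (A : G.Walk a a') (T : G.Walk a' b) (R : G.Walk b v),
        q.append p = A.append (T.append R) ∧ a' ∈ C ∧ b ∉ C ∧ 3 ≤ deg G b ∧ ¬ T.Nil ∧
        ∀ x ∈ T.support.tail, x ≠ b → ¬ 3 ≤ deg G x := by
  have hend : ∀ {a u : V} (q : G.Walk a u), a ∈ C → (∀ x ∈ q.support.tail, ¬ 3 ≤ deg G x) →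
      ¬ (3 ≤ deg G u ∧ u ∉ C) := by
    intro a u q ha hq
    rintro ⟨h1, h2⟩
    cases q with
    | nil => exact h2 ha
    | cons h q' =>
      refine hq u ?_ h1
      rw [SimpleGraph.Walk.support_cons, List.tail_cons]
      exact q'.end_mem_support
  induction p with
  | nil =>
    intro a q ha hq hw
    obtain ⟨w, hw1, hw2⟩ := hw
    rw [SimpleGraph.Walk.support_nil, List.mem_singleton] at hw1
    subst hw1
    exact absurd hw2 (hend q ha hq)
  | @cons u u' v h p ih =>
    intro a q ha hq hw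
    have hw' : ∃ w ∈ p.support, 3 ≤ deg G w ∧ w ∉ C := by
      obtain ⟨w, hw1, hw2⟩ := hw
      rw [SimpleGraph.Walk.support_cons, List.mem_cons] at hw1
      rcases hw1 with rfl | hw1
      · exact absurd hw2 (hend q ha hq)
      · exact ⟨w, hw1, hw2⟩
    have e1 : q.append (SimpleGraph.Walk.cons h p) = (q.concat h).append p := by
      rw [SimpleGraph.Walk.concat_append]
    have htail : ∀ x ∈ (q.concat h).support.tail, x ∈ q.support.tail ∨ x = u' := by
      intro x hx
      rw [SimpleGraph.Walk.support_concat, List.tail_append_of_ne_nil q.support_ne_nil,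
        List.mem_append, List.mem_singleton] at hx
      exact hx
    by_cases h3 : 3 ≤ deg G u'
    · by_cases hC : u' ∈ C
      · obtain ⟨a', b, A, T, R, h1, h2⟩ := ih (SimpleGraph.Walk.nil : G.Walk u' u') hC (by simp) hw'
        refine ⟨a', b, (q.concat h).append A, T, R, ?_, h2⟩
        rw [e1]
        rw [SimpleGraph.Walk.nil_append] at h1
        rw [h1, SimpleGraph.Walk.append_assoc]
      · refine ⟨a, u', SimpleGraph.Walk.nil, q.concat h, p, ?_, ha, hC, h3, ?_, ?_⟩
        · rw [e1, SimpleGraph.Walk.nil_append]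
        · intro hn
          have := SimpleGraph.Walk.length_eq_zero_iff.2 hn
          rw [SimpleGraph.Walk.length_concat] at this
          omega
        · intro x hx hxb
          rcases htail x hx with h4 | h4
          · exact hq x h4
          · exact absurd h4 hxb
    · obtain ⟨a', b, A, T, R, h1, h2⟩ := ih (q.concat h) ha (by
        intro x hx
        rcases htail x hx with h4 | h4
        · exact hq x h4
        · rw [h4]
          exact h3) hw'
      exact ⟨a', b, A, T, R, by rw [e1, h1], h2⟩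

/-- a thread of a cycle and the rest of the cycle -/
theorem split_cycle {V P Q : Type} [Finite V] {D : HD V P Q} (hD : D.Ok) (hG : GOk D) {u : V}
    (Z : D.G.Walk u u) (hZ : Z.IsCycle) (hVN : ∀ z ∈ Z.support, z ∈ D.VN) {a b : V}
    (A : D.G.Walk u a) (T : D.G.Walk a b) (R : D.G.Walk b u)
    (e : Z = A.append (T.append R)) (hTn : ¬ T.Nil) (hAR : ¬ (A.Nil ∧ R.Nil))
    (hT : ∀ x ∈ T.support, x ≠ a → x ≠ b → ¬ 3 ≤ deg D.G x) :
    T.IsPath ∧ a ≠ b ∧ (∀ x ∈ T.support, x ≠ a → x ≠ b → deg D.G x = 2) ∧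
      (∀ f ∈ T.edges, f ∉ (A.reverse.append R.reverse).edges) ∧
      (A.reverse.append R.reverse).length + T.length = Z.length ∧
      (∀ z ∈ (A.reverse.append R.reverse).support, z ∈ Z.support) ∧
      ∀ f ∈ T.edges, f ∈ Z.edges := by
  have hTp : T.IsPath := by
    by_cases hA : A.Nil
    · have hR : ¬ R.Nil := fun h => hAR ⟨hA, h⟩
      have hau : u = a := hA.eq
      subst hau
      have hA' : A = SimpleGraph.Walk.nil := hA.eq_nil
      rw [hA', SimpleGraph.Walk.nil_append] at e
      rw [e] at hZ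
      exact hZ.isPath_of_append_left hR
    · rw [e] at hZ
      exact (hZ.isPath_of_append_right hA).of_append_left
  have hab : a ≠ b := by
    intro h
    subst h
    exact hTn ((SimpleGraph.Walk.isPath_iff_nil.1 hTp))
  have hTsub : ∀ x ∈ T.support, x ∈ Z.support := by
    intro x hx
    rw [e, SimpleGraph.Walk.mem_support_append_iff, SimpleGraph.Walk.mem_support_append_iff]
    exact Or.inr (Or.inl hx)
  refine ⟨hTp, hab, ?_, ?_, ?_, ?_, ?_⟩
  · intro x hx h1 h2
    have h3 : ¬ 3 ≤ deg D.G x := hT x hx h1 h2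
    have h6 := hVN x (hTsub x hx)
    have h5 := hD.two x h6
    rw [← hG.dg_eq x h6] at h5
    omega
  · have hnd := hZ.isTrail.edges_nodup
    rw [e, SimpleGraph.Walk.edges_append, SimpleGraph.Walk.edges_append] at hnd
    intro f hf hf'
    rw [SimpleGraph.Walk.edges_append, SimpleGraph.Walk.edges_reverse,
      SimpleGraph.Walk.edges_reverse, List.mem_append, List.mem_reverse, List.mem_reverse] at hf'
    rcases hf' with h | h
    · exact (List.nodup_append.1 hnd).2.2 f h f (List.mem_append.2 (Or.inl hf)) rfl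
    · exact (List.nodup_append.1 (List.nodup_append.1 hnd).2.1).2.2 f hf f h rfl
  · rw [e]
    simp only [SimpleGraph.Walk.length_append, SimpleGraph.Walk.length_reverse]
    omega
  · intro y hy
    rw [SimpleGraph.Walk.mem_support_append_iff, SimpleGraph.Walk.support_reverse,
      SimpleGraph.Walk.support_reverse, List.mem_reverse, List.mem_reverse] at hy
    rw [e, SimpleGraph.Walk.mem_support_append_iff, SimpleGraph.Walk.mem_support_append_iff]
    rcases hy with hy | hy
    · exact Or.inl hy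
    · exact Or.inr (Or.inr hy)
  · intro f hf
    rw [e, SimpleGraph.Walk.edges_append, SimpleGraph.Walk.edges_append, List.mem_append,
      List.mem_append]
    exact Or.inr (Or.inl hf)

private theorem num_ins {X k k2 x ρ Δ t l s : ℕ} (hX : X = x * k * k2) (hx : 2 ≤ x) (hk : 1 ≤ k)
    (hk2 : 1 ≤ k2) (hl : l ≤ k * ρ) (hρ : ρ < 2 * (k2 + 1) * (Δ + 1)) (ht : Δ + 1 ≤ t)
    (hl1 : 1 ≤ l) (hs : s ≤ (l + 1) * x) : 2 * (s + 8 * l) ≤ 48 * X * t := by
  have h1 : ρ ≤ 4 * k2 * t := by
    have : 2 * (k2 + 1) * (Δ + 1) ≤ 2 * (k2 + 1) * t := Nat.mul_le_mul_left _ ht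
    have h2 : 2 * (k2 + 1) * t ≤ 4 * k2 * t := Nat.mul_le_mul_right _ (by omega)
    omega
  have h2 : l ≤ 4 * (k * k2 * t) := by
    calc l ≤ k * ρ := hl
      _ ≤ k * (4 * k2 * t) := Nat.mul_le_mul_left _ h1
      _ = 4 * (k * k2 * t) := by ring
  have h3 : l * x ≤ 4 * (X * t) := by
    calc l * x ≤ 4 * (k * k2 * t) * x := Nat.mul_le_mul_right _ h2
      _ = 4 * (X * t) := by rw [hX]; ring
  have h4 : (l + 1) * x ≤ 2 * (l * x) := by
    have : x ≤ l * x := Nat.le_mul_of_pos_left _ hl1
    have e : (l + 1) * x = l * x + x := by ring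
    omega
  have h5 : 2 * l ≤ l * x := by
    rw [Nat.mul_comm 2]
    exact Nat.mul_le_mul_left _ hx
  have h6 : 48 * X * t = 48 * (X * t) := by ring
  omega

private theorem kpl_le' {V : Type} {m m' : ℕ} {H : SimpleGraph V} (h : KPl m H) (hm : m ≤ m') :
    KPl m' H := by
  obtain ⟨pos, γ, hd, hc⟩ := h
  exact ⟨pos, γ, hd, fun e he => (hc e he).trans (by exact_mod_cast hm)⟩

/-- the sum of the degrees on a walk outside the hubs -/
theorem sum_deg {V P Q : Type} [Finite V] [DecidableEq V] {D : HD V P Q} (hG : GOk D) {v : V}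
    (Z : D.N.Walk v v) (hU : ∀ z ∈ Z.support, z ∉ D.U) :
    ∑ z ∈ Z.support.toFinset, deg D.G z ≤ (Z.length + 1) * (D.Kh * D.r) := by
  calc ∑ z ∈ Z.support.toFinset, deg D.G z ≤ ∑ z ∈ Z.support.toFinset, D.Kh * D.r := by
        refine Finset.sum_le_sum fun z hz => hG.deg_le z (hU z ?_)
        rwa [List.mem_toFinset] at hz
    _ = Z.support.toFinset.card * (D.Kh * D.r) := by rw [Finset.sum_const, smul_eq_mul]
    _ ≤ (Z.length + 1) * (D.Kh * D.r) := by
        refine Nat.mul_le_mul_right _ ?_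
        rw [← SimpleGraph.Walk.length_support]
        exact List.toFinset_card_le _

/-- a walk of `N` without `e`, in the graph with doors -/
theorem ring_N {V P Q : Type} (D : HD V P Q) (hD : D.Ok) (e : Sym2 V) (ord : V → V → ℕ)
    {u v : V} (A : D.N.Walk u v) : e ∉ A.edges →
    ∃ W : (ringOut (D.G.deleteEdges {e}) D.U ord).Walk (Sum.inl u) (Sum.inl v),
      W.length = A.length := by
  induction A with
  | nil => exact fun _ => ⟨SimpleGraph.Walk.nil, rfl⟩
  | @cons a b c h A ih =>
    intro he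
    rw [SimpleGraph.Walk.edges_cons, List.mem_cons, not_or] at he
    obtain ⟨W, hW⟩ := ih he.2
    have hH : (D.G.deleteEdges {e}).Adj a b := by
      rw [SimpleGraph.deleteEdges_adj]
      refine ⟨hD.N_le h, fun h1 => he.1 ?_⟩
      rw [Set.mem_singleton_iff] at h1
      exact h1.symm
    exact ⟨SimpleGraph.Walk.cons (ringOut_old hH (hD.N_U _ _ h) (hD.N_U _ _ h.symm)) W, by
      rw [SimpleGraph.Walk.length_cons, SimpleGraph.Walk.length_cons, hW]⟩

/-- **e1**, polynomial bound -/
theorem draw_e1 : ∃ c : ℕ, ∀ (V P Q : Type) [Finite V] [Finite P] [Finite Q] (D : HD V P Q)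
    (k k2 : ℕ), D.Ok → GOk D → 1 ≤ k → 1 ≤ k2 →
    (∀ e ∈ D.G.edgeSet, KPl 1 (D.G.deleteEdges {e})) →
    ∀ v (Z : D.N.Walk v v), Z.IsCycle → ∀ y ∈ Z.support, ∀ ρ, 1 ≤ ρ →
    bv D (D.ball ρ y) ≤ k2 → (∀ q, ¬ Pn D ρ y q) → Z.length ≤ k * ρ →
    KPl (c * (D.Kh * D.r * k * k2) ^ c) D.G := by
  classical
  obtain ⟨c0, hc0⟩ := moveT
  obtain ⟨c1, hc1⟩ := draw_cyc
  refine ⟨c0 * 13 ^ 6 + c1 + 96, fun V P Q _ _ _ D k k2 hD hG hk hk2 hcrit v Z hZ y hy ρ hρ hbv hpn
    hZl => ?_⟩
  -- numbers
  have hVNZ : ∀ z ∈ Z.support, z ∈ D.VN := by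
    intro z hz
    have hv : v ∈ D.VN := by
      cases Z with
      | nil => exact absurd rfl hZ.ne_nil
      | cons h _ => exact HD.VN_of_adj h
    exact HD.VN_of_walk Z hv hz
  have hUZ : ∀ z ∈ Z.support, z ∉ D.U := fun z hz => HD.VN_U hD (hVNZ z hz)
  have hKr : 2 ≤ D.Kh * D.r := (hD.two y (hVNZ y hy)).trans (hD.dg_le y (hUZ y hy))
  obtain ⟨X, hX⟩ : ∃ X, X = D.Kh * D.r * k * k2 := ⟨_, rfl⟩
  have hkk : 1 ≤ k * k2 := Nat.mul_pos hk hk2
  have hX1 : D.Kh * D.r ≤ X := by
    rw [hX, Nat.mul_assoc]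
    exact Nat.le_mul_of_pos_right _ hkk
  have hX2 : 2 * (k * k2) ≤ X := by
    rw [hX, Nat.mul_assoc]
    exact Nat.mul_le_mul_right _ hKr
  have hX3 : k2 ≤ k * k2 := Nat.le_mul_of_pos_left _ hk
  have hX4 : D.Kh * D.r * k2 ≤ X := by
    rw [hX]
    exact Nat.mul_le_mul_right _ (Nat.le_mul_of_pos_right _ hk)
  have hXc : ∀ c : ℕ, c ≤ c0 * 13 ^ 6 + c1 + 96 → c * X ^ c ≤
      (c0 * 13 ^ 6 + c1 + 96) * X ^ (c0 * 13 ^ 6 + c1 + 96) := fun c hc =>
    Nat.mul_le_mul hc (Nat.pow_le_pow_right (by omega) hc)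
  rw [← hX]
  -- few branch vertices
  by_cases hcy : {z | z ∈ Z.support ∧ 3 ≤ D.dg z}.ncard ≤ k2
  · refine kpl_le' (hc1 V P Q D k2 hD hG hk2 hcrit v Z hZ hcy) (le_trans ?_ (hXc c1 (by omega)))
    exact Nat.mul_le_mul_left _ (Nat.pow_le_pow_left hX4 _)
  rw [not_le] at hcy
  -- the gap
  obtain ⟨Δ, hΔ⟩ : ∃ Δ, Δ = ρ / (2 * (k2 + 1)) := ⟨_, rfl⟩
  have hΔ1 : 2 * ((k2 + 1) * Δ) ≤ ρ := by
    rw [hΔ, ← Nat.mul_assoc]
    exact Nat.mul_div_le _ _
  have hΔ2 : ρ < 2 * (k2 + 1) * (Δ + 1) := by
    rw [hΔ]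
    exact Nat.lt_mul_div_succ _ (by omega)
  obtain ⟨i, hi, hgap⟩ := Pool.Agent.Helper62.PL.exists_gap D.N (Vb D) y k2 Δ
    (le_trans (Set.ncard_le_ncard (Set.inter_subset_inter_left _ fun v hv => hv.mono (by omega))
      (Set.toFinite _)) hbv)
  obtain ⟨σ, hσ⟩ : ∃ σ, σ = i * Δ := ⟨_, rfl⟩
  rw [← hσ] at hgap
  have hσ1 : 2 * σ ≤ ρ := by
    have h1 : i * Δ ≤ (k2 + 1) * Δ := Nat.mul_le_mul_right _ (by omega)
    omega
  have hσ2 : (i + 1) * Δ = σ + Δ := by
    rw [hσ]
    ring
  rw [hσ2] at hgap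
  -- the core
  obtain ⟨C, hC⟩ : ∃ C : Set V, C = {v | Nr D.N σ y v} ∩ Vb D := ⟨_, rfl⟩
  have hCk : C.ncard ≤ k2 := by
    rw [hC]
    exact le_trans (Set.ncard_le_ncard
      (Set.inter_subset_inter_left _ fun v hv => hv.mono (by omega)) (Set.toFinite _)) hbv
  have hCV : ∀ u ∈ C, u ∈ D.VN ∧ 3 ≤ D.dg u := by
    intro u hu
    rw [hC] at hu
    exact ⟨HD.VN_of_nr hu.1 (hVNZ y hy), hu.2⟩
  have hfar : ∀ w, w ∈ D.VN → 3 ≤ deg D.G w → w ∉ C → ¬ Nr D.N (σ + Δ) y w := by
    intro w hw h3 hwC h1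
    have h4 : w ∈ Vb D := by
      show 3 ≤ D.dg w
      rwa [← hG.dg_eq w hw]
    apply hwC
    rw [hC]
    exact ⟨hgap w h4 h1, h4⟩
  have hlen3 := hZ.three_le_length
  -- a branch vertex of the cycle outside the core
  obtain ⟨w0, hw0, hw03, hw0C⟩ : ∃ w ∈ Z.support, 3 ≤ deg D.G w ∧ w ∉ C := by
    by_contra hcon
    push Not at hcon
    have h1 : {z | z ∈ Z.support ∧ 3 ≤ D.dg z} ⊆ C := by
      rintro z ⟨hz, hz3⟩
      refine hcon z hz ?_
      rwa [hG.dg_eq z (hVNZ z hz)]
    have := Set.ncard_le_ncard h1 (Set.toFinite _)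
    omega
  have hZ' : (Z.mapLe hD.N_le).IsCycle := (SimpleGraph.Walk.isCycle_mapLe hD.N_le).2 hZ
  have hsZ' : ∀ z, z ∈ (Z.mapLe hD.N_le).support ↔ z ∈ Z.support := by
    intro z
    rw [SimpleGraph.Walk.support_mapLe_eq_support]
  by_cases hcase : ∃ u ∈ Z.support, u ∈ C
  · -- the core is moved along the cycle
    obtain ⟨u, hu, huC⟩ := hcase
    obtain ⟨Z1, hZ1e⟩ : ∃ Z1, Z1 = (Z.mapLe hD.N_le).rotate u ((hsZ' u).2 hu) := ⟨_, rfl⟩
    have hZ1 : Z1.IsCycle := by
      rw [hZ1e]
      exact hZ'.rotate _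
    have hl1 : Z1.length = Z.length := by
      rw [hZ1e, SimpleGraph.Walk.length_rotate, SimpleGraph.Walk.length_mapLe]
    have hs1 : ∀ z, z ∈ Z1.support ↔ z ∈ Z.support := by
      intro z
      rw [hZ1e, SimpleGraph.Walk.mem_support_rotate_iff, hsZ']
    have he1 : ∀ f ∈ Z1.edges, f ∈ Z.edges := by
      intro f hf
      rw [hZ1e] at hf
      have := ((Z.mapLe hD.N_le).rotate_edges u ((hsZ' u).2 hu)).mem_iff.1 hf
      rwa [SimpleGraph.Walk.edges_mapLe_eq_edges] at this
    obtain ⟨u0, v0, A, T0, R, e, hu0, hv0, hv03, hTn, hT⟩ := leave C Z1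
      (SimpleGraph.Walk.nil : D.G.Walk u u) huC (by simp) ⟨w0, (hs1 w0).2 hw0, hw03, hw0C⟩
    rw [SimpleGraph.Walk.nil_append] at e
    have hAR : ¬ (A.Nil ∧ R.Nil) := by
      rintro ⟨hA, hR⟩
      have h1 : u = u0 := hA.eq
      have h2 : v0 = u := hR.eq
      exact hv0 (h2 ▸ huC)
    obtain ⟨t1, t2, t3, t4, t5, t6, t7⟩ := split_cycle hD hG Z1 hZ1
      (fun z hz => hVNZ z ((hs1 z).1 hz)) A T0 R e hTn hAR (by
        intro x hx hxa hxb
        rw [SimpleGraph.Walk.mem_support_iff] at hx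
        rcases hx with hx | hx
        · exact absurd hx hxa
        · exact hT x hx hxb)
    obtain ⟨W0, hW0⟩ : ∃ W0, W0 = A.reverse.append R.reverse := ⟨_, rfl⟩
    rw [← hW0] at t4 t5 t6
    -- the last edge
    obtain ⟨e0, he0⟩ : ∃ e0, e0 = s(T0.penultimate, v0) := ⟨_, rfl⟩
    have he0T : e0 ∈ T0.edges := by
      rw [he0]
      exact SimpleGraph.Walk.mk_penultimate_end_eq_getLast_edges hTn ▸ List.getLast_mem _
    have hv0VN : v0 ∈ D.VN := by
      refine hVNZ v0 ((hs1 v0).1 ?_)
      rw [e, SimpleGraph.Walk.mem_support_append_iff, SimpleGraph.Walk.mem_support_append_iff]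
      exact Or.inr (Or.inl T0.end_mem_support)
    have hv0U : v0 ∉ D.U := HD.VN_U hD hv0VN
    have hv0far := hfar v0 hv0VN hv03 hv0
    have he0G : e0 ∈ D.G.edgeSet := T0.edges_subset_edgeSet he0T
    have hnotv : ∀ {a b : V} (W : D.N.Walk a b), v0 ∉ W.support → e0 ∉ W.edges := by
      intro a b W hW h
      rw [he0] at h
      exact hW (W.snd_mem_support_of_mem_edges h)
    have he0N : e0 ∈ D.N.edgeSet := Z.edges_subset_edgeSet (he1 _ (t7 _ he0T))
    -- the rest of the cycle is a walk of `N`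
    have hW0N : ∀ f ∈ W0.edges, f ∈ D.N.edgeSet := by
      intro f hf
      refine Z.edges_subset_edgeSet (he1 f ?_)
      rw [hW0, SimpleGraph.Walk.edges_append, SimpleGraph.Walk.edges_reverse,
        SimpleGraph.Walk.edges_reverse, List.mem_append, List.mem_reverse, List.mem_reverse] at hf
      rw [e, SimpleGraph.Walk.edges_append, SimpleGraph.Walk.edges_append, List.mem_append,
        List.mem_append]
      rcases hf with hf | hf
      · exact Or.inl hf
      · exact Or.inr (Or.inr hf)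
    have hfin : KPl (c0 * (13 * X) ^ 6) D.G := by
      refine hc0 V P Q D u0 v0 T0 e0 (13 * X) C hD hG t1 t3 he0T (hcrit e0 he0G) (by omega)
        (by omega) (by omega) hu0 hCV ?_
      intro ord hord
      -- from `v0` to the vertices near `y`
      have hback : ∀ z, Nr D.N σ y z →
          ∃ W : (ringOut (D.G.deleteEdges {e0}) D.U ord).Walk (Sum.inl v0) (Sum.inl z),
            W.length ≤ (k + 1) * ρ := by
        intro z hz
        obtain ⟨Wr, hWr⟩ := ring_N D hD e0 ord (W0.transfer D.N hW0N).reverse (by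
          rw [SimpleGraph.Walk.edges_reverse, List.mem_reverse, SimpleGraph.Walk.edges_transfer]
          exact fun h => t4 e0 he0T h)
        rw [SimpleGraph.Walk.length_reverse, SimpleGraph.Walk.length_transfer] at hWr
        have hu0y : Nr D.N σ y u0 := by
          rw [hC] at hu0
          exact hu0.1
        have hno : ∀ {x : V} (B : D.N.Walk y x), B.length ≤ σ → v0 ∉ B.support := by
          intro x B hB h
          exact hv0far ((Nr.of_mem h).mono (by omega))
        obtain ⟨B1, hB1⟩ := hu0y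
        obtain ⟨B2, hB2⟩ := hz
        obtain ⟨S1, hS1⟩ := ring_N D hD e0 ord B1 (hnotv B1 (hno B1 hB1))
        obtain ⟨S2, hS2⟩ := ring_N D hD e0 ord B2 (hnotv B2 (hno B2 hB2))
        refine ⟨Wr.append (S1.reverse.append S2), ?_⟩
        rw [SimpleGraph.Walk.length_append, SimpleGraph.Walk.length_append,
          SimpleGraph.Walk.length_reverse]
        have h1 : (k + 1) * ρ = k * ρ + ρ := by ring
        omega
      refine ⟨fun _ => Sum.inl v0, ?_, ?_, ?_, ?_⟩
      · intro _ _ a ha h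
        exact hv0U (Sum.inl.inj h ▸ ha)
      · intro u _ v _ A _
        exact ⟨SimpleGraph.Walk.nil, by simp⟩
      · intro a ha b hb hbN hb3 B hB hBin
        by_cases hbv0 : b = v0
        · subst hbv0
          exact ⟨SimpleGraph.Walk.nil, by simp⟩
        have ha' := ha
        rw [hC] at ha'
        obtain ⟨W, hW⟩ := hback a ha'.1
        have hv0B : v0 ∉ B.support := by
          intro h
          have h1 := hBin v0 h (fun h2 => hv0 (h2 ▸ ha)) (fun h2 => hbv0 h2.symm)
          rw [← hG.dg_eq v0 hv0VN] at h1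
          omega
        obtain ⟨B', hB'⟩ := ring_N D hD e0 ord B (hnotv B hv0B)
        refine ⟨W.append B', ?_⟩
        rw [SimpleGraph.Walk.length_append, hB']
        have h1 : Δ + 1 ≤ B.length := by
          by_contra hcon
          have h2 : Nr D.N (σ + B.length) y b := ha'.1.trans ⟨B, le_rfl⟩
          refine hfar b hbN ?_ hb (h2.mono (by omega))
          rwa [hG.dg_eq b hbN]
        have h4 : ρ ≤ 2 * (k2 + 1) * B.length := hΔ2.le.trans (Nat.mul_le_mul_left _ h1)
        have h5 : (k + 1) * (2 * (k2 + 1)) + 1 ≤ 13 * X := by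
          nlinarith
        calc W.length + B.length ≤ (k + 1) * ρ + B.length := Nat.add_le_add_right hW _
          _ ≤ (k + 1) * (2 * (k2 + 1) * B.length) + B.length :=
            Nat.add_le_add_right (Nat.mul_le_mul_left _ h4) _
          _ = ((k + 1) * (2 * (k2 + 1)) + 1) * B.length := by ring
          _ ≤ 13 * X * B.length := Nat.mul_le_mul_right _ h5
      · intro q hq
        have hq' := hq
        rw [hC] at hq'
        obtain ⟨W, hW⟩ := hback (D.x q) hq'.1
        obtain ⟨d, hd, A', hA'⟩ := Pool.Agent.Helper62.PL.ring_pin D hD hG e0 ord hord q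
          (fun h => Pool.Agent.Helper62.PL.pin_not_N hD (by
            have h1 : D.N.Adj T0.penultimate v0 := by
              rw [he0] at he0N
              exact he0N
            exact h1) (by
            rw [← he0]
            exact h))
        refine ⟨d, hd, W.append A', ?_⟩
        rw [SimpleGraph.Walk.length_append]
        have h1 : ρ < σ + (D.w q).length := by
          by_contra hcon
          exact hpn q ⟨σ, hq'.1, by omega⟩
        have h4 : ρ ≤ 2 * (D.w q).length := by omega
        have h5 : (k + 1) * 2 + 1 ≤ 13 * X := by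
          nlinarith
        calc W.length + A'.length ≤ (k + 1) * ρ + (D.w q).length := Nat.add_le_add hW hA'
          _ ≤ (k + 1) * (2 * (D.w q).length) + (D.w q).length :=
            Nat.add_le_add_right (Nat.mul_le_mul_left _ h4) _
          _ = ((k + 1) * 2 + 1) * (D.w q).length := by ring
          _ ≤ 13 * X * (D.w q).length := Nat.mul_le_mul_right _ h5
    refine kpl_le' hfin ?_
    calc c0 * (13 * X) ^ 6 = c0 * 13 ^ 6 * X ^ 6 := by rw [mul_pow]; ring
      _ ≤ (c0 * 13 ^ 6 + c1 + 96) * X ^ (c0 * 13 ^ 6 + c1 + 96) :=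
        Nat.mul_le_mul (by omega) (Nat.pow_le_pow_right (by omega) (by omega))
  · -- the thread of the cycle that contains `y` is long
    push Not at hcase
    obtain ⟨Z1, hZ1e⟩ : ∃ Z1, Z1 = (Z.mapLe hD.N_le).rotate w0 ((hsZ' w0).2 hw0) := ⟨_, rfl⟩
    have hZ1 : Z1.IsCycle := by
      rw [hZ1e]
      exact hZ'.rotate _
    have hl1 : Z1.length = Z.length := by
      rw [hZ1e, SimpleGraph.Walk.length_rotate, SimpleGraph.Walk.length_mapLe]
    have hs1 : ∀ z, z ∈ Z1.support ↔ z ∈ Z.support := by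
      intro z
      rw [hZ1e, SimpleGraph.Walk.mem_support_rotate_iff, hsZ']
    have hy1 : y ∈ Z1.support := (hs1 y).2 hy
    have hy3 : ¬ 3 ≤ deg D.G y := by
      intro h3
      refine hcase y hy ?_
      rw [hC]
      refine ⟨Nr.refl _ _ _, ?_⟩
      show 3 ≤ D.dg y
      rwa [← hG.dg_eq y (hVNZ y hy)]
    have hne : y ≠ w0 := fun h => hy3 (h ▸ hw03)
    have hn1 : ¬ (Z1.takeUntil y hy1).reverse.Nil := by
      intro h
      exact hne h.eq
    have hn2 : ¬ (Z1.dropUntil y hy1).Nil := by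
      intro h
      exact hne h.eq
    obtain ⟨a, T1, R1, e1, hT1n, ha3, hT1⟩ := cy_first _ hn1 hw03
    obtain ⟨b, T2, R2, e2, hT2n, hb3, hT2⟩ := cy_first _ hn2 hw03
    have e : Z1 = R1.reverse.append ((T1.reverse.append T2).append R2) := by
      have h1 := Z1.take_spec hy1
      have h2 : Z1.takeUntil y hy1 = R1.reverse.append T1.reverse := by
        rw [← SimpleGraph.Walk.reverse_append, ← e1, SimpleGraph.Walk.reverse_reverse]
      rw [h2, e2] at h1
      rw [← h1]
      simp only [SimpleGraph.Walk.append_assoc]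
    have hTn : ¬ (T1.reverse.append T2).Nil := by
      intro h
      have h1 := SimpleGraph.Walk.length_eq_zero_iff.2 h
      rw [SimpleGraph.Walk.length_append] at h1
      exact hT2n (SimpleGraph.Walk.length_eq_zero_iff.1 (by omega))
    have hTtail : ∀ x ∈ (T1.reverse.append T2).support, x ≠ a → x ≠ b → ¬ 3 ≤ deg D.G x := by
      intro x hx hxa hxb
      rw [SimpleGraph.Walk.mem_support_append_iff, SimpleGraph.Walk.support_reverse,
        List.mem_reverse] at hx
      rcases hx with hx | hx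
      · rw [SimpleGraph.Walk.mem_support_iff] at hx
        rcases hx with rfl | hx
        · exact hy3
        · exact hT1 x hx hxa
      · rw [SimpleGraph.Walk.mem_support_iff] at hx
        rcases hx with rfl | hx
        · exact hy3
        · exact hT2 x hx hxb
    have hAR : ¬ (R1.reverse.Nil ∧ R2.Nil) := by
      rintro ⟨hA, hR⟩
      have h1 : w0 = a := hA.eq
      have h2 : b = w0 := hR.eq
      obtain ⟨x1, hx1, x2, hx2, hx12, hx13, hx23⟩ := hG.cyc _ _ hZ1
      have h3 : ∀ x ∈ Z1.support, 3 ≤ deg D.G x → x = w0 := by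
        intro x hx hx3
        have hx' : x ∈ (T1.reverse.append T2).support := by
          rw [e, SimpleGraph.Walk.mem_support_append_iff,
            SimpleGraph.Walk.mem_support_append_iff] at hx
          rcases hx with hx | hx | hx
          · subst h1
            rw [hA.eq_nil, SimpleGraph.Walk.support_nil, List.mem_singleton] at hx
            rw [hx]
            exact SimpleGraph.Walk.start_mem_support _
          · exact hx
          · subst h2
            rw [hR.eq_nil, SimpleGraph.Walk.support_nil, List.mem_singleton] at hx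
            rw [hx]
            exact SimpleGraph.Walk.end_mem_support _
        by_contra h4
        exact hTtail x hx' (fun h => h4 (h.trans h1.symm)) (fun h => h4 (h.trans h2)) hx3
      exact hx12 ((h3 x1 hx1 hx13).trans (h3 x2 hx2 hx23).symm)
    obtain ⟨t1, t2, t3, t4, t5, t6, t7⟩ := split_cycle hD hG Z1 hZ1
      (fun z hz => hVNZ z ((hs1 z).1 hz)) R1.reverse (T1.reverse.append T2) R2 e hTn hAR hTtail
    obtain ⟨W0, hW0⟩ : ∃ W0, W0 = R1.reverse.reverse.append R2.reverse := ⟨_, rfl⟩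
    rw [← hW0] at t4 t5 t6
    have haZ : a ∈ Z.support := by
      refine (hs1 a).1 ?_
      rw [e, SimpleGraph.Walk.mem_support_append_iff]
      exact Or.inl (SimpleGraph.Walk.end_mem_support _)
    have hTlen : Δ + 1 ≤ (T1.reverse.append T2).length := by
      rw [SimpleGraph.Walk.length_append, SimpleGraph.Walk.length_reverse]
      by_contra hcon
      refine hfar a (hVNZ a haZ) ha3 (hcase a haZ) ?_
      have hT1N : ∀ f ∈ T1.edges, f ∈ D.N.edgeSet := by
        intro f hf
        have h1 : f ∈ Z1.edges := t7 f (by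
          rw [SimpleGraph.Walk.edges_append, SimpleGraph.Walk.edges_reverse, List.mem_append,
            List.mem_reverse]
          exact Or.inl hf)
        rw [hZ1e] at h1
        have h2 := ((Z.mapLe hD.N_le).rotate_edges w0 ((hsZ' w0).2 hw0)).mem_iff.1 h1
        rw [SimpleGraph.Walk.edges_mapLe_eq_edges] at h2
        exact Z.edges_subset_edgeSet h2
      exact ⟨T1.transfer D.N hT1N, by
        rw [SimpleGraph.Walk.length_transfer]
        omega⟩
    have key := Pool.Agent.Helper71.QU.insert_walk D.G hcrit t2 (T1.reverse.append T2) W0 t1 t3 t4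
      Z.support.toFinset (fun z hz _ _ => List.mem_toFinset.2 ((hs1 z).1 (t6 z hz))) (48 * X)
      (num_ins hX hKr hk hk2 hZl hΔ2 hTlen (by omega) (sum_deg hG Z hUZ) |> fun h => by
        have : W0.length ≤ Z.length := by omega
        omega)
    refine kpl_le' key (le_trans ?_ (hXc 96 (by omega)))
    have h1 : X ≤ X ^ 96 := Nat.le_self_pow (by norm_num) _
    refine max_le ?_ ?_ <;> omega

end Pool.Agent.Helper83.PW
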