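import Pool.Agent.Helper52.PL.Move

/-!
# PW/Move: moving a set `C` of vertices, any thread at `C` is removed (MP_0dbcb7_co)

`Helper52/PL/Move.move` with the removed edge on any thread `T0` which starts in `C` (there: a pin).
-/

set_option autoImplicit false

open Set
open Pool.Agent.Helper83.OP Pool.Agent.Helper83.LN Pool.Agent.Helper83.HR Pool.Agent.Helper93.HH
  Pool.Agent.Helper95.HH Pool.Agent.Helper52.PL

namespace Pool.Agent.Helper83.PW

/-- Moving a set `C` of vertices of `N` (not hubs). `e` is an edge of a thread `T0` which starts in `C`.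
`f v` is the new place of `v ∈ C`. Threads of `N` between two vertices of `C`; threads of `N` leaving `C` are long; pins
at `C` are long or their hub is near. -/
theorem moveT : ∃ c : ℕ, ∀ (V P Q : Type) [Finite V] [Finite P] [Finite Q] (D : HD V P Q)
    (u0 v0 : V) (T0 : D.G.Walk u0 v0) (e : Sym2 V) (M : ℕ) (C : Set V), D.Ok → GOk D →
    T0.IsPath → (∀ x ∈ T0.support, x ≠ u0 → x ≠ v0 → deg D.G x = 2) → e ∈ T0.edges →
    KPl 1 (D.G.deleteEdges {e}) → 1 ≤ M → D.Kh * D.r ≤ M → C.ncard ≤ M → u0 ∈ C →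
    (∀ v ∈ C, v ∈ D.VN ∧ 3 ≤ D.dg v) →
    (∀ ord : V → V → ℕ, IsOrd (D.G.deleteEdges {e}) D.U ord →
      ∃ f : V → V ⊕ Dor (D.G.deleteEdges {e}) D.U,
        (∀ v ∈ C, ∀ a ∈ D.U, f v ≠ Sum.inl a) ∧
        (∀ u ∈ C, ∀ v ∈ C, ∀ A : D.N.Walk u v, A.IsPath →
          ∃ p : (ringOut (D.G.deleteEdges {e}) D.U ord).Walk (f u) (f v), p.length ≤ M * A.length) ∧
        (∀ u ∈ C, ∀ v, v ∉ C → v ∈ D.VN → 3 ≤ D.dg v → ∀ A : D.N.Walk u v, A.IsPath →
          (∀ z ∈ A.support, z ≠ u → z ≠ v → D.dg z = 2) →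
          ∃ p : (ringOut (D.G.deleteEdges {e}) D.U ord).Walk (f u) (Sum.inl v),
            p.length ≤ M * A.length) ∧
        ∀ q, D.x q ∈ C → ∃ d : Dor (D.G.deleteEdges {e}) D.U, d.1.2 = D.hub q ∧
          ∃ p : (ringOut (D.G.deleteEdges {e}) D.U ord).Walk (f (D.x q)) (Sum.inr d),
            p.length ≤ M * (D.w q).length) →
    KPl (c * M ^ 6) D.G := by
  classical
  obtain ⟨c, hlite⟩ := lite
  refine ⟨c, ?_⟩
  intro V P Q _ _ _ D u0 v0 T0 e M C hD hG hT0 hT02 he hK hM1 hKM hCM hp0 hC hf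
  have hC2 : ∀ u ∈ C, deg D.G u ≠ 2 := by
    intro u hu
    have h1 := hC u hu
    have h2 := hG.dg_eq u h1.1
    omega
  have hCU : ∀ u ∈ C, u ∉ D.U := fun u hu => VN_U D hD (hC u hu).1
  have hUN : ∀ u ∈ D.U, ¬ Inn D.G C u := by
    intro u hu h
    have := inn_deg h
    have := hG.U_ge u hu
    omega
  have hM3 : M ≤ M ^ 3 ∧ M * M ≤ M ^ 3 := by
    have h1 : M * M ≤ M * M * M := Nat.le_mul_of_pos_right _ hM1
    have h2 : M ≤ M * M := Nat.le_mul_of_pos_right _ hM1
    have h3 : M ^ 3 = M * M * M := by ring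
    omega
  obtain ⟨T, hT, ⟨Ct⟩⟩ := Pool.Agent.Helper71.UT.exists_cut (G := D.G)
    (M := {v | ¬ Inn D.G C v}) (fun v hv h => hv (inn_deg h)) (by
      intro x Z hZ
      obtain ⟨u, hu, v, hv, huv, h1, h2⟩ := hG.cyc x Z hZ
      refine ⟨u, hu, v, hv, huv, fun h => ?_, fun h => ?_⟩
      · have := inn_deg h
        omega
      · have := inn_deg h
        omega)
  have hpos : ∀ q, 0 < (Ct.sg.T q).length := by
    intro q
    rcases Nat.eq_zero_or_pos (Ct.sg.T q).length with h | h
    · exact absurd (SimpleGraph.Walk.eq_of_length_eq_zero h) (Ct.sg.ne q)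
    · exact h
  -- unit edges
  have hlen1 : ∀ q, Ct.sg.a q ∉ C → Ct.sg.b q ∉ C → (Ct.sg.T q).length = 1 := by
    intro q ha hb
    by_contra h
    have h1 : 1 < (Ct.sg.T q).length := by
      have := hpos q
      omega
    have hz : Inn D.G C ((Ct.sg.T q).getVert 1) := by
      by_contra h2
      refine Ct.nm q _ ((Ct.sg.T q).getVert_mem_support 1) ?_ ?_ h2
      · intro h
        have := ((Ct.sg.path q).getVert_eq_start_iff h1.le).mp h
        omega
      · intro h
        have := ((Ct.sg.path q).getVert_eq_end_iff h1.le).mp h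
        omega
    rcases inn_end Ct.sg Ct.ma Ct.mb hC2 q hz ((Ct.sg.T q).getVert_mem_support 1) with h2 | h2
    · exact ha h2
    · exact hb h2
  have hno : ∀ q, Ct.sg.a q ∈ D.U → Ct.sg.b q ∉ D.U := by
    intro q ha hb
    have h1 := hlen1 q (fun h => hCU _ h ha) (fun h => hCU _ h hb)
    exact hubs_na D hD hG _ ha _ hb (SimpleGraph.Walk.adj_of_length_eq_one h1)
  -- orientation
  have hor : ∀ q, ∃ (u v : V) (p : D.G.Walk u v), p.IsPath ∧ u ≠ v ∧ u ∉ D.U ∧
      ¬ Inn D.G C u ∧ ¬ Inn D.G C v ∧ (u ∉ C → v ∉ C → p.length = 1) ∧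
      (∀ f, f ∈ p.edges ↔ f ∈ (Ct.sg.T q).edges) ∧
      (∀ x ∈ p.support, x ≠ u → x ≠ v → deg D.G x = 2) := by
    intro q
    by_cases ha : Ct.sg.a q ∈ D.U
    · refine ⟨Ct.sg.b q, Ct.sg.a q, (Ct.sg.T q).reverse, (Ct.sg.path q).reverse, (Ct.sg.ne q).symm,
        hno q ha, Ct.mb q, Ct.ma q, ?_, ?_, ?_⟩
      · intro h1 h2
        rw [SimpleGraph.Walk.length_reverse]
        exact hlen1 q h2 h1
      · intro f; simp
      · intro x hx hxu hxv
        rw [SimpleGraph.Walk.support_reverse, List.mem_reverse] at hx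
        exact Ct.sg.inner q x hx hxv hxu
    · exact ⟨Ct.sg.a q, Ct.sg.b q, Ct.sg.T q, Ct.sg.path q, Ct.sg.ne q, ha, Ct.ma q, Ct.mb q,
        hlen1 q, fun _ => Iff.rfl, Ct.sg.inner q⟩
  choose u v p hp huv huU hnu hnv hl1 hed hin using hor
  let Sg' : Pool.Agent.Helper95.UP.Seg D.G T :=
    { a := u, b := v, T := p, ne := huv, path := hp
      cover := fun f hf => by
        obtain ⟨q, hq⟩ := Ct.sg.cover f hf
        exact ⟨q, (hed q f).mpr hq⟩
      disj := fun q q' f hf hf' => Ct.sg.disj q q' f ((hed q f).mp hf) ((hed q' f).mp hf')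
      inner := hin }
  have hTf : Fintype T := Fintype.ofFinite T
  set S0 : Finset T := Finset.univ.filter fun q => u q ∈ C ∨ v q ∈ C with hS0
  have hmS : ∀ q, q ∈ S0 ↔ (u q ∈ C ∨ v q ∈ C) := fun q => by simp [hS0]
  have hx0 : ∀ q, (Pool.Agent.Helper71.UT.toThreads Sg').x q 0 = u q := fun q =>
    Pool.Agent.Helper71.UT.toThreads_zero Sg' q
  have hxl : ∀ q, (Pool.Agent.Helper71.UT.toThreads Sg').x q
      ((Pool.Agent.Helper71.UT.toThreads Sg').len q) = v q := fun q =>
    Pool.Agent.Helper71.UT.toThreads_last Sg' q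
  have hll : ∀ q, (Pool.Agent.Helper71.UT.toThreads Sg').len q = (p q).length := fun _ => rfl
  have hfin := hlite V T D.G D.U (Pool.Agent.Helper71.UT.toThreads Sg') e (M ^ 3) S0 hK
    (Nat.one_le_pow _ _ hM1) (hubs_na D hD hG)
    (fun v hv => (hG.deg_le v hv).trans (hKM.trans hM3.1)) ?_ ?_ ?_ ?_ ?_
  · have h1 : c * (M ^ 3) ^ 2 = c * M ^ 6 := by ring
    rwa [h1] at hfin
  · -- the number of moved strands
    refine (card_seg Sg' C S0 (fun q hq => (hmS q).1 hq) M (D.Kh * D.r) hCM
      (fun u hu => hG.deg_le u (hCU u hu))).trans ?_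
    exact (Nat.mul_le_mul_left _ hKM).trans hM3.2
  · intro q hq
    rw [hmS, not_or] at hq
    exact hl1 q hq.1 hq.2
  · intro q t ht
    show (p q).getVert t ∉ D.U
    have ht' : t < (p q).length := ht
    rcases Nat.eq_zero_or_pos t with rfl | h0
    · rw [SimpleGraph.Walk.getVert_zero]
      exact huU q
    · intro hU
      have hd : deg D.G ((p q).getVert t) = 2 := by
        apply hin q _ ((p q).getVert_mem_support _)
        · intro h
          have := ((hp q).getVert_eq_start_iff ht'.le).mp h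
          omega
        · intro h
          have := ((hp q).getVert_eq_end_iff ht'.le).mp h
          omega
      have := hG.U_ge _ hU
      omega
  · -- the edge `e` is on a moved strand
    intro q hq t ht h
    rw [hmS] at hq
    apply hq
    have h1 : s((p q).getVert t, (p q).getVert (t + 1)) ∈ (p q).edges :=
      Pool.Agent.Helper71.UT.mem_edges_getVert (p q) ht
    have h2 : e ∈ (p q).edges := by
      rw [← h]
      exact h1
    obtain ⟨i, hi, hie⟩ := Pool.Agent.Helper71.UT.edge_index T0 he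
    have h3 : T0.getVert i ∈ (p q).support := by
      rw [hie] at h2
      exact (p q).fst_mem_support_of_mem_edges h2
    rcases Nat.eq_zero_or_pos i with rfl | h0
    · rw [SimpleGraph.Walk.getVert_zero] at h3
      by_contra h4
      push Not at h4
      exact hC2 _ hp0 (hin q _ h3 (fun h => h4.1 (h ▸ hp0)) (fun h => h4.2 (h ▸ hp0)))
    · have h4 := inn_chain T0 hp0 i hi.le (by
        intro j hj hji
        refine hT02 _ (T0.getVert_mem_support _) ?_ ?_
        · intro h
          have := (hT0.getVert_eq_start_iff (by omega)).mp h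
          omega
        · intro h
          have := (hT0.getVert_eq_end_iff (by omega)).mp h
          omega) i h0 le_rfl
      exact inn_end Sg' hnu hnv hC2 q h4 h3
  · -- the places
    intro ord hord
    obtain ⟨f, f1, f2, f3, f4⟩ := hf ord hord
    let pl : V → V ⊕ Dor (D.G.deleteEdges {e}) D.U := fun v => if v ∈ C then f v else Sum.inl v
    have hpC : ∀ v ∈ C, pl v = f v := fun v hv => if_pos hv
    have hpN : ∀ v, v ∉ C → pl v = Sum.inl v := fun v hv => if_neg hv
    have hle : ∀ n, M * n ≤ M ^ 3 * n := fun n => Nat.mul_le_mul_right _ hM3.1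
    refine ⟨pl, ?_, ?_, ?_, ?_⟩
    · intro v hv a ha
      by_cases h : v ∈ C
      · rw [hpC v h]
        exact f1 v h a ha
      · rw [hpN v h]
        intro h2
        exact hv (Sum.inl.inj h2 ▸ ha)
    · intro q hq
      rw [hmS, not_or] at hq
      rw [hx0, hxl]
      exact ⟨hpN _ hq.1, fun _ => hpN _ hq.2⟩
    · intro q hq
      rw [hx0, hxl, hll]
      intro hvU
      by_cases h : u q ∈ C
      · obtain ⟨A, hA⟩ := (strand D e M C hD hG hC ord f f2 f3 f4 pl hpC hpN (p q) (hp q) (huv q) h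
          (hnv q) (hin q)).1 hvU
        exact ⟨A, hA.trans (hle _)⟩
      · have h2 : v q ∈ C := ((hmS q).1 hq).resolve_left h
        obtain ⟨A, hA⟩ := (strand D e M C hD hG hC ord f f2 f3 f4 pl hpC hpN (p q).reverse
          (hp q).reverse (huv q).symm h2 (hnu q) (by
            intro x hx hxu hxv
            rw [SimpleGraph.Walk.support_reverse, List.mem_reverse] at hx
            exact hin q x hx hxv hxu)).1 (huU q)
        refine ⟨A.reverse, ?_⟩
        rw [SimpleGraph.Walk.length_reverse] at hA ⊢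
        exact hA.trans (hle _)
    · intro q hq
      rw [hx0, hxl, hll]
      intro hvU
      have h : u q ∈ C := ((hmS q).1 hq).resolve_right (fun h => hCU _ h hvU)
      obtain ⟨d, hd, A, hA⟩ := (strand D e M C hD hG hC ord f f2 f3 f4 pl hpC hpN (p q) (hp q)
        (huv q) h (hnv q) (hin q)).2 hvU
      exact ⟨d, hd, A, hA.trans (hle _)⟩

end Pool.Agent.Helper83.PW
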